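import Mathlib

/-!
# Symmetric order condition without connection, but too few palindromes
-/

namespace Pool.Agent.Results.MP_0168d2_co.FewPalindromes

/-- `L` is a language on the alphabet `A` (with `L_1 = A`): it contains the empty word and all
letters, it is factorial and extendable. `L_n` is the set of words of length `n` in `L`. -/
structure IsLanguage {A : Type} (L : Set (List A)) : Prop where
  nil_mem : [] ∈ L
  letter_mem : ∀ a : A, [a] ∈ L
  tail_mem : ∀ (a : A) (u : List A), a :: u ∈ L → u ∈ L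
  init_mem : ∀ (u : List A) (b : A), u ++ [b] ∈ L → u ∈ L
  extend_left : ∀ u ∈ L, ∃ a : A, a :: u ∈ L
  extend_right : ∀ u ∈ L, ∃ b : A, u ++ [b] ∈ L

/-- `w` is bispecial in `L`. -/
def Bispecial {A : Type} (L : Set (List A)) (w : List A) : Prop :=
  w ∈ L ∧ (∃ a a' : A, a ≠ a' ∧ a :: w ∈ L ∧ a' :: w ∈ L) ∧
    (∃ b b' : A, b ≠ b' ∧ w ++ [b] ∈ L ∧ w ++ [b'] ∈ L)

/-- The order condition for the pair `(ltA, ltD)`. -/
def OrderCondition {A : Type} (L : Set (List A)) (ltA ltD : A → A → Prop) : Prop :=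
  ∀ v : List A, Bispecial L v → ∀ x x' y y' : A, x :: (v ++ [y]) ∈ L → x' :: (v ++ [y']) ∈ L →
    x ≠ x' → y ≠ y' → (ltA x x' ↔ ltD y y')

/-- `a, a'` are consecutive in the order `lt`. -/
def Consecutive {A : Type} (lt : A → A → Prop) (a a' : A) : Prop :=
  lt a a' ∧ ¬ ∃ c, lt a c ∧ lt c a'

/-- The bispecial word `w` has a connection. -/
def HasConnection {A : Type} (L : Set (List A)) (ltA ltD : A → A → Prop) (w : List A) : Prop :=
  ∃ a a' b b' : A, Consecutive ltA a a' ∧ Consecutive ltD b b' ∧
    a :: (w ++ [b]) ∈ L ∧ a' :: (w ++ [b']) ∈ L ∧ a :: (w ++ [b']) ∉ L ∧ a' :: (w ++ [b]) ∉ L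

/-- The palindromic complexity. -/
noncomputable def PC {A : Type} (L : Set (List A)) (n : ℕ) : ℕ :=
  Set.ncard {w : List A | w ∈ L ∧ w.length = n ∧ w = w.reverse}

/-- The hypotheses of Q1: `L` is a language on `k` letters which satisfies the order condition for
a symmetric pair of strict total orders and has no connection. -/
def Hyp (k : ℕ) (A : Type) (L : Set (List A)) : Prop :=
  Nat.card A = k ∧ Finite A ∧ IsLanguage L ∧ ∃ ltA ltD : A → A → Prop,
    IsStrictTotalOrder A ltA ∧ IsStrictTotalOrder A ltD ∧ (∀ x y, ltD x y ↔ ltA y x) ∧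
    OrderCondition L ltA ltD ∧ ∀ w, Bispecial L w → ¬ HasConnection L ltA ltD w

/-- the allowed two letter words -/
def E (k : ℕ) (x y : Fin k) : Prop :=
  ((x : ℕ) = 0 ∧ 1 ≤ (y : ℕ)) ∨ (1 ≤ (x : ℕ) ∧ (y : ℕ) = 1) ∨ ((x : ℕ) = k - 1 ∧ (y : ℕ) = 0)

/-- the language of all words whose two letter factors are allowed -/
def Lang (k : ℕ) : Set (List (Fin k)) := {w | List.IsChain (E k) w}

variable {k : ℕ}

lemma isLanguage (hk : 4 ≤ k) : IsLanguage (Lang k) where
  nil_mem := List.isChain_nil
  letter_mem a := List.isChain_singleton a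
  tail_mem a u h := (List.isChain_cons.mp h).2
  init_mem u b h := (List.isChain_append.mp h).1
  extend_left u hu := by
    rcases u with _ | ⟨x, u⟩
    · exact ⟨⟨0, by omega⟩, List.isChain_singleton _⟩
    · by_cases hx : (x : ℕ) = 0
      · refine ⟨⟨k - 1, by omega⟩, ?_⟩
        show List.IsChain (E k) _
        rw [List.isChain_cons_cons]
        exact ⟨Or.inr (Or.inr ⟨rfl, hx⟩), hu⟩
      · refine ⟨⟨0, by omega⟩, ?_⟩
        show List.IsChain (E k) _
        rw [List.isChain_cons_cons]
        exact ⟨Or.inl ⟨rfl, by omega⟩, hu⟩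
  extend_right u hu := by
    refine ⟨⟨1, by omega⟩, ?_⟩
    show List.IsChain (E k) _
    rw [List.isChain_append]
    refine ⟨hu, List.isChain_singleton _, ?_⟩
    intro x _ y hy
    rw [List.head?_cons, Option.mem_some_iff] at hy
    subst hy
    by_cases hx : (x : ℕ) = 0
    · exact Or.inl ⟨hx, le_rfl⟩
    · exact Or.inr (Or.inl ⟨by omega, rfl⟩)

/-- after the letter `1` only `1` follows -/
lemma ones (hk : 4 ≤ k) : ∀ (u : List (Fin k)) (c y : Fin k), (c : ℕ) = 1 →
    List.IsChain (E k) (c :: (u ++ [y])) → (y : ℕ) = 1 := by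
  intro u
  induction u with
  | nil =>
    intro c y hc h
    rw [List.nil_append, List.isChain_cons_cons] at h
    rcases h.1 with h1 | h1 | h1 <;> omega
  | cons d u ih =>
    intro c y hc h
    rw [List.cons_append, List.isChain_cons_cons] at h
    have hd : (d : ℕ) = 1 := by
      rcases h.1 with h1 | h1 | h1 <;> omega
    exact ih d y hd h.2

/-- only the empty word can be extended in two ways on both sides -/
lemma eq_nil (hk : 4 ≤ k) {v : List (Fin k)} {x x' y y' : Fin k} (h : x :: (v ++ [y]) ∈ Lang k)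
    (h' : x' :: (v ++ [y']) ∈ Lang k) (hx : x ≠ x') (hy : y ≠ y') : v = [] := by
  rcases v with _ | ⟨c, u⟩
  · rfl
  · exfalso
    have e1 : List.IsChain (E k) (x :: (c :: (u ++ [y]))) := h
    have e2 : List.IsChain (E k) (x' :: (c :: (u ++ [y']))) := h'
    rw [List.isChain_cons_cons] at e1 e2
    have hxv : (x : ℕ) ≠ x' := fun h => hx (Fin.ext h)
    have hc : (c : ℕ) = 1 := by
      rcases e1.1 with h1 | h1 | h1 <;> rcases e2.1 with h2 | h2 | h2 <;> omega
    have y1 := ones hk u c y hc e1.2
    have y2 := ones hk u c y' hc e2.2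
    exact hy (Fin.ext (y1.trans y2.symm))

lemma pair_mem {x y : Fin k} : x :: ([] ++ [y]) ∈ Lang k ↔ E k x y := by
  show List.IsChain (E k) [x, y] ↔ _
  rw [List.isChain_cons_cons]
  exact and_iff_left (List.isChain_singleton _)

theorem hyp (hk : 4 ≤ k) : Hyp k (Fin k) (Lang k) := by
  refine ⟨by simp, inferInstance, isLanguage hk, (fun x y => x < y), (fun x y => y < x),
    inferInstance, inferInstance, fun x y => Iff.rfl, ?_, ?_⟩
  · intro v _ x x' y y' h h' hx hy
    have hv := eq_nil hk h h' hx hy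
    subst hv
    rw [pair_mem] at h h'
    have hxv : (x : ℕ) ≠ x' := fun h => hx (Fin.ext h)
    have hyv : (y : ℕ) ≠ y' := fun h => hy (Fin.ext h)
    show x < x' ↔ y' < y
    rw [Fin.lt_def, Fin.lt_def]
    have := x.isLt
    have := x'.isLt
    have := y.isLt
    have := y'.isLt
    rcases h with h1 | h1 | h1 <;> rcases h' with h2 | h2 | h2 <;> omega
  · rintro w _ ⟨a, a', b, b', ⟨ha, hca⟩, ⟨hb, hcb⟩, h1, h2, h3, h4⟩
    have hv := eq_nil hk h1 h2 (ne_of_lt ha) (ne_of_gt hb)
    subst hv
    rw [pair_mem] at h1 h2 h3 h4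
    simp only at ha hb hca hcb
    have e1 : (a' : ℕ) = a + 1 := by
      by_contra hne
      apply hca
      have := a'.isLt
      rw [Fin.lt_def] at ha
      exact ⟨⟨a + 1, by omega⟩, by rw [Fin.lt_def]; simp, by rw [Fin.lt_def]; simp only; omega⟩
    have e2 : (b : ℕ) = b' + 1 := by
      by_contra hne
      apply hcb
      have := b.isLt
      rw [Fin.lt_def] at hb
      exact ⟨⟨b' + 1, by omega⟩, by rw [Fin.lt_def]; simp only; omega,
        by rw [Fin.lt_def]; simp⟩
    unfold E at h1 h2 h3 h4
    have := a'.isLt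
    have := b.isLt
    omega

theorem PC_three (hk : 4 ≤ k) : PC (Lang k) 3 = 3 := by
  have hset : {w : List (Fin k) | w ∈ Lang k ∧ w.length = 3 ∧ w = w.reverse}
      = ({[⟨0, by omega⟩, ⟨k - 1, by omega⟩, ⟨0, by omega⟩],
        [⟨k - 1, by omega⟩, ⟨0, by omega⟩, ⟨k - 1, by omega⟩],
        [⟨1, by omega⟩, ⟨1, by omega⟩, ⟨1, by omega⟩]} : Finset (List (Fin k))) := by
    ext w
    simp only [Set.mem_ofPred_eq, Finset.coe_insert, Finset.coe_singleton, Set.mem_insert_iff,
      Set.mem_singleton_iff]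
    constructor
    · rintro ⟨h1, h2, h3⟩
      obtain ⟨x, y, z, rfl⟩ := List.length_eq_three.mp h2
      have h4 : z = x := by
        simp only [List.reverse_cons, List.reverse_nil, List.nil_append, List.cons_append] at h3
        injection h3 with h5
        exact h5.symm
      subst h4
      have h5 : List.IsChain (E k) [z, y, z] := h1
      rw [List.isChain_cons_cons, List.isChain_cons_cons] at h5
      obtain ⟨h6, h7, _⟩ := h5
      unfold E at h6 h7
      have hz := z.isLt
      have hy := y.isLt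
      by_cases c1 : (z : ℕ) = 0
      · left
        have c2 : (y : ℕ) = k - 1 := by omega
        rw [show z = ⟨0, by omega⟩ from Fin.ext c1, show y = ⟨k - 1, by omega⟩ from Fin.ext c2]
      · right
        by_cases c2 : (y : ℕ) = 0
        · left
          have c3 : (z : ℕ) = k - 1 := by omega
          rw [show z = ⟨k - 1, by omega⟩ from Fin.ext c3, show y = ⟨0, by omega⟩ from Fin.ext c2]
        · right
          have c3 : (z : ℕ) = 1 := by omega
          have c4 : (y : ℕ) = 1 := by omega
          rw [show z = ⟨1, by omega⟩ from Fin.ext c3, show y = ⟨1, by omega⟩ from Fin.ext c4]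
    · rintro (rfl | rfl | rfl)
      · refine ⟨?_, rfl, rfl⟩
        show List.IsChain (E k) _
        rw [List.isChain_cons_cons, List.isChain_cons_cons]
        refine ⟨Or.inl ⟨rfl, ?_⟩, Or.inr (Or.inr ⟨rfl, rfl⟩), List.isChain_singleton _⟩
        show 1 ≤ k - 1
        omega
      · refine ⟨?_, rfl, rfl⟩
        show List.IsChain (E k) _
        rw [List.isChain_cons_cons, List.isChain_cons_cons]
        refine ⟨Or.inr (Or.inr ⟨rfl, rfl⟩), Or.inl ⟨rfl, ?_⟩, List.isChain_singleton _⟩
        show 1 ≤ k - 1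
        omega
      · refine ⟨?_, rfl, rfl⟩
        show List.IsChain (E k) _
        rw [List.isChain_cons_cons, List.isChain_cons_cons]
        exact ⟨Or.inr (Or.inl ⟨le_rfl, rfl⟩), Or.inr (Or.inl ⟨le_rfl, rfl⟩),
          List.isChain_singleton _⟩
  unfold PC
  rw [hset, Set.ncard_coe_finset]
  rw [Finset.card_insert_of_notMem, Finset.card_insert_of_notMem, Finset.card_singleton]
  · simp only [Finset.mem_singleton, List.cons.injEq, Fin.mk.injEq, and_true]
    omega
  · simp only [Finset.mem_insert, Finset.mem_singleton, List.cons.injEq, Fin.mk.injEq, and_true]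
    omega

/-- **Disproof of Q1 of MP_0168d2_co.**  For every `k ≥ 4` there is a language on `k` letters which
satisfies the order condition for a symmetric pair of orders and has no connection, but has only
`3 < k` palindromes of length `3`. Hence the statement of Q1 is false. -/
theorem result :
    (∀ k : ℕ, 4 ≤ k → ∃ L : Set (List (Fin k)), Hyp k (Fin k) L ∧ PC L 3 = 3) ∧
    ¬ (∀ (k : ℕ) (A : Type) (L : Set (List A)), 1 ≤ k → Hyp k A L →
      ∀ n : ℕ, (Even n → PC L n = 1) ∧ (Odd n → PC L n = k)) := by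
  constructor
  · intro k hk
    exact ⟨Lang k, hyp hk, PC_three hk⟩
  · intro h
    have h1 := (h 4 (Fin 4) (Lang 4) (by norm_num) (hyp le_rfl) 3).2 (by decide)
    rw [PC_three le_rfl] at h1
    omega

end Pool.Agent.Results.MP_0168d2_co.FewPalindromes
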